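import Mathlib
import Pool.Agent.Helper766.KoebeRadius

set_option autoImplicit false

open Polynomial Finset

namespace Pool.Agent.Results.MP_c979e5_an.ExtremalRadius

/-- The class `P_N`: complex polynomials of degree `N` with `P(0) = 0`, `P'(0) = 1` which are injective
on the open unit disc. -/
def InClass (N : ℕ) (P : ℂ[X]) : Prop :=
  P.natDegree = N ∧ P.coeff 0 = 0 ∧ P.coeff 1 = 1 ∧
    Set.InjOn (fun z => P.eval z) (Metric.ball (0 : ℂ) 1)

/-- `r(P) = dist(0, ∂ P(D))`. -/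
noncomputable def radius (P : ℂ[X]) : ℝ :=
  Metric.infDist (0 : ℂ) (frontier ((fun z => P.eval z) '' Metric.ball (0 : ℂ) 1))

/-- The Koebe radius `R_N = inf { r(P) : P ∈ P_N }`. -/
noncomputable def koebeRadius (N : ℕ) : ℝ := sInf {ρ : ℝ | ∃ P : ℂ[X], InClass N P ∧ radius P = ρ}

/-- `P` is the rotation `z ↦ e^{-iα} F_N(z e^{iα})` of `F_N` for some real `α`. -/
def IsRotationOfF (N : ℕ) (P : ℂ[X]) : Prop :=
  ∃ α : ℝ, ∀ z : ℂ, P.eval z =
    Complex.exp (-((α : ℂ) * Complex.I)) *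
      ∑ j ∈ Finset.Icc 1 N,
        (((Polynomial.derivative (Polynomial.Chebyshev.U ℝ ((N : ℤ) - (j : ℤ) + 1))).eval
              (Real.cos (Real.pi / ((N : ℝ) + 2))) *
            (Polynomial.Chebyshev.U ℝ ((j : ℤ) - 1)).eval
              (Real.cos (Real.pi / ((N : ℝ) + 2))) /
            (Polynomial.derivative (Polynomial.Chebyshev.U ℝ (N : ℤ))).eval
              (Real.cos (Real.pi / ((N : ℝ) + 2))) : ℝ) : ℂ) *
          (z * Complex.exp ((α : ℂ) * Complex.I)) ^ j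

open Pool.Agent.Helper766

lemma coef_top {N : ℕ} (hN : 1 ≤ N) : coef N N ≠ 0 := by
  rw [coef_eq hN]
  have hM : (0 : ℝ) < (N : ℝ) + 2 := by positivity
  have hN1 : (1 : ℝ) ≤ N := by exact_mod_cast hN
  unfold bc
  set φ : ℝ := 2 * Real.pi / ((N + 2 : ℕ) : ℝ) with hφ
  have hMφ : ((N : ℝ) + 2) * φ = 2 * Real.pi := by
    rw [hφ]; push_cast; field_simp
  have h1 : (N : ℝ) * φ = 2 * Real.pi - 2 * φ := by
    linear_combination hMφ
  rw [h1, Real.cos_two_pi_sub, Real.sin_two_pi_sub]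
  have hφ0 : 0 < φ := by positivity
  have hφπ : φ < Real.pi := by
    have : 3 * φ ≤ 2 * Real.pi := by nlinarith
    linarith [Real.pi_pos]
  have hs : 0 < Real.sin φ := Real.sin_pos_of_pos_of_lt_pi hφ0 hφπ
  have hc : 0 < 1 - Real.cos φ := by
    have h : Real.cos φ < Real.cos 0 :=
      Real.cos_lt_cos_of_nonneg_of_le_pi le_rfl hφπ.le hφ0
    rw [Real.cos_zero] at h
    linarith
  rw [Real.cos_two_mul, Real.sin_two_mul]
  push_cast
  have e : (1 - (2 * Real.cos φ ^ 2 - 1)) / (1 - Real.cos φ) +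
      ((N : ℝ) + 2 - N) * -(2 * Real.sin φ * Real.cos φ) / Real.sin φ = 2 * (1 - Real.cos φ) := by
    field_simp
    ring
  rw [e]
  positivity

lemma FN_coeff (N j : ℕ) : (FN N).coeff j = if 1 ≤ j ∧ j ≤ N then coef N j else 0 := by
  unfold FN
  rw [finsetSum_coeff]
  simp only [coeff_C_mul, coeff_X_pow, mul_ite, mul_one, mul_zero]
  rw [Finset.sum_ite_eq]
  simp only [mem_Icc]

/-- the rotated polynomial -/
noncomputable def rot (N : ℕ) (α : ℝ) : ℂ[X] :=
  ∑ j ∈ Icc 1 N, C (((coef N j : ℝ) : ℂ) * Complex.exp ((α : ℂ) * Complex.I) ^ (j - 1)) * X ^ j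

lemma rot_eval (N : ℕ) (α : ℝ) (z : ℂ) : (rot N α).eval z =
    Complex.exp (-((α : ℂ) * Complex.I)) *
      aeval (z * Complex.exp ((α : ℂ) * Complex.I)) (FN N) := by
  rw [aeval_FN]
  unfold rot
  rw [eval_finsetSum, mul_sum]
  apply sum_congr rfl
  intro j hj
  have hj1 : 1 ≤ j := (mem_Icc.mp hj).1
  obtain ⟨k, rfl⟩ : ∃ k, j = k + 1 := ⟨j - 1, by omega⟩
  simp only [eval_mul, eval_C, eval_pow, eval_X, add_tsub_cancel_right]
  rw [Complex.exp_neg, mul_pow, pow_succ (Complex.exp ((α : ℂ) * Complex.I))]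
  have := Complex.exp_ne_zero ((α : ℂ) * Complex.I)
  field_simp

lemma rot_coeff (N : ℕ) (α : ℝ) (j : ℕ) : (rot N α).coeff j =
    if 1 ≤ j ∧ j ≤ N then ((coef N j : ℝ) : ℂ) * Complex.exp ((α : ℂ) * Complex.I) ^ (j - 1)
      else 0 := by
  unfold rot
  rw [finsetSum_coeff]
  simp only [coeff_C_mul, coeff_X_pow, mul_ite, mul_one, mul_zero]
  rw [Finset.sum_ite_eq]
  simp only [mem_Icc]

lemma rot_image (N : ℕ) (α : ℝ) (w : ℂ) :
    w ∈ (fun z => (rot N α).eval z) '' Metric.ball (0 : ℂ) 1 ↔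
      w * Complex.exp ((α : ℂ) * Complex.I) ∈
        (fun z : ℂ => aeval z (FN N)) '' Metric.ball (0 : ℂ) 1 := by
  have hn : ‖Complex.exp ((α : ℂ) * Complex.I)‖ = 1 := Complex.norm_exp_ofReal_mul_I α
  have hn' : ‖Complex.exp (-((α : ℂ) * Complex.I))‖ = 1 := by
    rw [Complex.exp_neg, norm_inv, hn, inv_one]
  have hinv : Complex.exp (-((α : ℂ) * Complex.I)) * Complex.exp ((α : ℂ) * Complex.I) = 1 := by
    rw [← Complex.exp_add, neg_add_cancel, Complex.exp_zero]
  constructor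
  · rintro ⟨z, hz, rfl⟩
    refine ⟨z * Complex.exp ((α : ℂ) * Complex.I), ?_, ?_⟩
    · rw [mem_ball_zero_iff] at hz ⊢
      rwa [norm_mul, hn, mul_one]
    · simp only
      rw [rot_eval]
      linear_combination (-aeval (z * Complex.exp ((α : ℂ) * Complex.I)) (FN N)) * hinv
  · rintro ⟨z, hz, h⟩
    refine ⟨z * Complex.exp (-((α : ℂ) * Complex.I)), ?_, ?_⟩
    · rw [mem_ball_zero_iff] at hz ⊢
      rwa [norm_mul, hn', mul_one]
    · simp only at h ⊢
      rw [rot_eval, mul_assoc, hinv, mul_one, h]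
      linear_combination w * hinv

lemma rot_inClass {N : ℕ} (hN : 1 ≤ N) (α : ℝ) : InClass N (rot N α) := by
  refine ⟨?_, ?_, ?_, ?_⟩
  · apply le_antisymm
    · rw [natDegree_le_iff_coeff_eq_zero]
      intro j hj
      rw [rot_coeff]
      split_ifs with h
      · omega
      · rfl
    · apply le_natDegree_of_ne_zero
      rw [rot_coeff, if_pos ⟨hN, le_rfl⟩]
      apply mul_ne_zero
      · exact_mod_cast coef_top hN
      · exact pow_ne_zero _ (Complex.exp_ne_zero _)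
  · rw [rot_coeff]; simp
  · rw [rot_coeff, if_pos ⟨le_rfl, hN⟩, coef_one hN]
    simp
  · intro z1 h1 z2 h2 h
    simp only at h
    rw [rot_eval, rot_eval] at h
    have hn : ‖Complex.exp ((α : ℂ) * Complex.I)‖ = 1 := Complex.norm_exp_ofReal_mul_I α
    have h3 := mul_left_cancel₀ (Complex.exp_ne_zero _) h
    rw [mem_ball_zero_iff] at h1 h2
    have h4 := FN_injOn hN (x₁ := z1 * Complex.exp ((α : ℂ) * Complex.I))
      (by rw [mem_ball_zero_iff, norm_mul, hn, mul_one]; exact h1)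
      (x₂ := z2 * Complex.exp ((α : ℂ) * Complex.I))
      (by rw [mem_ball_zero_iff, norm_mul, hn, mul_one]; exact h2) h3
    exact mul_right_cancel₀ (Complex.exp_ne_zero _) h4


/-- `F_N(-1)` is not attained in the disc. -/
lemma FN_neg_one_not_mem {N : ℕ} (hN : 1 ≤ N) :
    aeval (-1 : ℂ) (FN N) ∉ (fun z : ℂ => aeval z (FN N)) '' Metric.ball (0 : ℂ) 1 := by
  rintro ⟨z, hz, h⟩
  simp only at h
  have hinj := FN_injOn hN
  -- open mapping near z contradicts injectivity: use points near -1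
  have han : AnalyticOnNhd ℂ (fun z : ℂ => aeval z (FN N)) (Metric.ball 0 1) :=
    ((FN N).differentiable_aeval.differentiableOn).analyticOnNhd Metric.isOpen_ball
  have hopen : ∀ s ⊆ Metric.ball (0 : ℂ) 1, IsOpen s →
      IsOpen ((fun z : ℂ => aeval z (FN N)) '' s) := by
    rcases han.is_constant_or_isOpen (convex_ball (0 : ℂ) 1).isPreconnected with ⟨w, hw⟩ | hop
    · exfalso
      have h1 := hw 0 (by simp)
      have h2 := hw (1 / 2) (by simp; norm_num)
      have h3 := hinj (by simp) (by simp; norm_num) (h1.trans h2.symm)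
      norm_num at h3
    · exact hop
  rw [mem_ball_zero_iff] at hz
  -- small ball around z inside the disc, away from -1
  set ε : ℝ := (1 - ‖z‖) / 2 with hε
  have hε0 : 0 < ε := by rw [hε]; linarith
  have hsub : Metric.ball z ε ⊆ Metric.ball (0 : ℂ) 1 := by
    intro w hw
    rw [mem_ball_zero_iff]
    rw [Metric.mem_ball, dist_eq_norm] at hw
    have : ‖w‖ ≤ ‖w - z‖ + ‖z‖ := by
      calc ‖w‖ = ‖(w - z) + z‖ := by ring_nf
        _ ≤ _ := norm_add_le _ _
    linarith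
  have himg : IsOpen ((fun z : ℂ => aeval z (FN N)) '' Metric.ball z ε) :=
    hopen _ hsub Metric.isOpen_ball
  have hmem : aeval (-1 : ℂ) (FN N) ∈ (fun z : ℂ => aeval z (FN N)) '' Metric.ball z ε :=
    ⟨z, Metric.mem_ball_self hε0, h⟩
  -- the points -1 + δ
  have hc : Filter.Tendsto (fun r : ℝ => aeval (-(r : ℂ)) (FN N)) (nhdsWithin 1 (Set.Iio 1))
      (nhds (aeval (-1 : ℂ) (FN N))) := by
    have h1 : Continuous (fun r : ℝ => aeval (-(r : ℂ)) (FN N)) :=
      (FN N).continuous_aeval.comp (by fun_prop)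
    have h2 := h1.tendsto 1
    simp only [Complex.ofReal_one] at h2
    exact h2.mono_left nhdsWithin_le_nhds
  have hev := hc.eventually (himg.mem_nhds hmem)
  have hev2 : ∀ᶠ r in nhdsWithin (1 : ℝ) (Set.Iio 1), r ∈ Set.Ioo (1 - ε) 1 :=
    Ioo_mem_nhdsLT (by linarith)
  have hev3 : ∀ᶠ r in nhdsWithin (1 : ℝ) (Set.Iio 1), r ∈ Set.Ioo (0 : ℝ) 1 :=
    Ioo_mem_nhdsLT one_pos
  obtain ⟨r, hr⟩ := ((hev.and hev2).and hev3).exists
  obtain ⟨⟨⟨w, hw, hw2⟩, hr1⟩, hr2⟩ := hr
  simp only at hw2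
  have hrn : ‖-(r : ℂ)‖ = r := by
    rw [norm_neg, Complex.norm_real, Real.norm_eq_abs, abs_of_pos hr2.1]
  have h3 := hinj (hsub hw) (by rw [mem_ball_zero_iff, hrn]; exact hr2.2) hw2
  rw [h3, Metric.mem_ball, dist_eq_norm] at hw
  have h4 : ‖-(r : ℂ)‖ ≤ ‖-(r : ℂ) - z‖ + ‖z‖ := by
    calc ‖-(r : ℂ)‖ = ‖(-(r : ℂ) - z) + z‖ := by ring_nf
      _ ≤ _ := norm_add_le _ _
  rw [hrn] at h4
  have h5 := hr1.1
  have : ε = (1 - ‖z‖) / 2 := hε
  linarith

lemma rot_radius {N : ℕ} (hN : 1 ≤ N) (α : ℝ) :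
    radius (rot N α) = 1 / (4 * Real.cos (Real.pi / ((N : ℝ) + 2)) ^ 2) := by
  set ρ := 1 / (4 * Real.cos (Real.pi / ((N : ℝ) + 2)) ^ 2) with hρ
  have hρ0 : 0 ≤ ρ := by rw [hρ]; positivity
  set V := (fun z => (rot N α).eval z) '' Metric.ball (0 : ℂ) 1 with hV
  set e := Complex.exp ((α : ℂ) * Complex.I) with he
  have hn : ‖e‖ = 1 := Complex.norm_exp_ofReal_mul_I α
  have he0 : e ≠ 0 := Complex.exp_ne_zero _
  have hcov : Metric.ball (0 : ℂ) ρ ⊆ V := by
    intro w hw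
    rw [hV, rot_image]
    apply ball_subset_image (FN N) (by rw [FN_coeff]; simp)
      (by rw [FN_coeff, if_pos ⟨le_rfl, hN⟩, coef_one hN]) (fun z hz => norm_circle_ge hN hz)
    rw [mem_ball_zero_iff] at hw ⊢
    rwa [norm_mul, hn, mul_one]
  -- the boundary point
  set w0 : ℂ := -(ρ : ℂ) * e⁻¹ with hw0
  have hFm1 : aeval (-1 : ℂ) (FN N) = -(ρ : ℂ) := by
    have h := aeval_ofReal' (FN N) (-1)
    rw [FN_eval_neg_one hN, ← hρ, Complex.ofReal_neg, Complex.ofReal_neg, Complex.ofReal_one] at h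
    exact h
  have hnot : w0 ∉ V := by
    rw [hV, rot_image, hw0, mul_assoc, ← he, inv_mul_cancel₀ he0, mul_one, ← hFm1]
    exact FN_neg_one_not_mem hN
  have hclos : w0 ∈ closure V := by
    rw [mem_closure_iff_seq_limit]
    refine ⟨fun n => (rot N α).eval (-(((n : ℝ) / ((n : ℝ) + 1) : ℝ) : ℂ) * e⁻¹), ?_, ?_⟩
    · intro n
      refine ⟨-(((n : ℝ) / ((n : ℝ) + 1) : ℝ) : ℂ) * e⁻¹, ?_, rfl⟩
      rw [mem_ball_zero_iff, norm_mul, norm_neg, norm_inv, hn, inv_one, mul_one,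
        Complex.norm_real, Real.norm_eq_abs, abs_of_nonneg (by positivity),
        div_lt_one (by positivity)]
      linarith
    · have h1 : Filter.Tendsto (fun n : ℕ => (n : ℝ) / ((n : ℝ) + 1)) Filter.atTop (nhds 1) := by
        have := tendsto_natCast_div_add_atTop (𝕜 := ℝ) 1
        simpa using this
      have h2 : Continuous (fun r : ℝ => (rot N α).eval (-(r : ℂ) * e⁻¹)) :=
        (rot N α).continuous.comp (by fun_prop)
      have h3 := (h2.tendsto 1).comp h1
      have h4 : (rot N α).eval (-((1 : ℝ) : ℂ) * e⁻¹) = w0 := by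
        rw [rot_eval, ← he, mul_assoc, inv_mul_cancel₀ he0, mul_one, Complex.ofReal_one, hFm1,
          Complex.exp_neg, ← he, hw0]
        ring
      rw [h4] at h3
      exact h3
  have hopen : IsOpen V := by
    have han : AnalyticOnNhd ℂ (fun z => (rot N α).eval z) (Metric.ball 0 1) :=
      ((rot N α).differentiable.differentiableOn).analyticOnNhd Metric.isOpen_ball
    rcases han.is_constant_or_isOpen (convex_ball (0 : ℂ) 1).isPreconnected with ⟨w, hw⟩ | hop
    · exfalso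
      have h1 := hw 0 (by simp)
      have h2 := hw (1 / 2) (by simp; norm_num)
      have h3 := (rot_inClass hN α).2.2.2 (by simp) (by simp; norm_num) (h1.trans h2.symm)
      norm_num at h3
    · exact hop _ subset_rfl Metric.isOpen_ball
  have hfr : frontier V = closure V \ V := hopen.frontier_eq
  have hmem : w0 ∈ frontier V := by
    rw [hfr]; exact ⟨hclos, hnot⟩
  have hw0n : ‖w0‖ = ρ := by
    rw [hw0, norm_mul, norm_neg, norm_inv, hn, inv_one, mul_one, Complex.norm_real,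
      Real.norm_eq_abs, abs_of_nonneg hρ0]
  unfold radius
  rw [← hV]
  apply le_antisymm
  · have := Metric.infDist_le_dist_of_mem (x := (0 : ℂ)) hmem
    rwa [dist_zero_left, hw0n] at this
  · rw [Metric.le_infDist ⟨w0, hmem⟩]
    intro y hy
    rw [dist_zero_left]
    by_contra hcon
    push Not at hcon
    rw [hfr] at hy
    exact hy.2 (hcov (by rwa [mem_ball_zero_iff]))

/-- For every `N ≥ 1` all the rotations of `F_N` belong to the class `P_N` and satisfy
`r(P) = 1/(4 cos²(π/(N+2)))` exactly; in particular `R_N ≤ 1/(4 cos²(π/(N+2)))`. -/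
theorem result : ∀ N : ℕ, 1 ≤ N →
    (∀ P : ℂ[X], IsRotationOfF N P →
      InClass N P ∧ radius P = 1 / (4 * Real.cos (Real.pi / ((N : ℝ) + 2)) ^ 2)) ∧
    koebeRadius N ≤ 1 / (4 * Real.cos (Real.pi / ((N : ℝ) + 2)) ^ 2) := by
  intro N hN
  refine ⟨?_, ?_⟩
  · rintro P ⟨α, hα⟩
    have hP : P = rot N α := by
      apply Polynomial.funext
      intro z
      rw [hα z, rot_eval, aeval_FN]
      rfl
    rw [hP]
    exact ⟨rot_inClass hN α, rot_radius hN α⟩
  · apply csInf_le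
    · refine ⟨0, ?_⟩
      rintro _ ⟨P, _, rfl⟩
      exact Metric.infDist_nonneg
    · exact ⟨rot N 0, rot_inClass hN 0, rot_radius hN 0⟩

end Pool.Agent.Results.MP_c979e5_an.ExtremalRadius
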